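import Pool.Agent.U26.SG.Stm4
import Pool.Agent.R989.Det2
import Pool.Agent.Y265.HY.B

/-!
# Project SG, package HSC2: from values to derivatives, with second moments only

The proof of `Pool.Agent.R989.Det.hsc` (helper989) with the structure `M2C` of `Pool.Agent.Y265.HY.B`.
-/

set_option autoImplicit false
open MeasureTheory Filter Topology Complex
open scoped ContDiff

namespace Pool.Agent.U882.SG

open Pool.Agent.W745.RW Pool.Agent.TH294.RS
open Pool.Agent.Y265.HY (M2C M2)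
open Pool.Agent.R989.Der (PR PR_bd PR_deriv PR_sub lim_deriv SD Rt Rt_zero Rt_add Rt_smul Rt_one
  Rt_I pw pw_cont pw_norm gd sy_cont sy_norm sy_eq)
open Pool.Agent.R989.Det (sm sm_pw dc du lap_dil)
open Pool.Agent.N661.BR (MW)
open Pool.Agent.U26.SG (Dat2 UF S_HSC2)

noncomputable section

variable (h : ℕ → ℝ) (u : ℕ → ℂ → ℂ) (m : ℝ) (ν : Measure ℝ)

/-- the sequence `G` of derivatives has the symbol `c` -/
structure PQ (G : ℕ → ℂ → ℂ) (c : ℝ → ℂ) : Prop where
  mc : M2C Set.univ h G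
  cc : Continuous c
  cb : ∃ C, ∀ α, ‖c α‖ ≤ C
  lim : ∀ φ, TF Set.univ φ → ∀ w ∈ Rt, Tendsto (fun n => PR φ h u G n w) atTop
    (𝓝 (((∫ z, φ z : ℝ) : ℂ) * ((m : ℂ) * ∫ α, c α * pw w α ∂ν)))

variable {h u m ν} [IsProbabilityMeasure ν]

theorem step (hh : Tendsto h atTop (𝓝 0)) (hu : LB Set.univ 2 u) {G : ℕ → ℂ → ℂ} {c : ℝ → ℂ}
    (H : PQ h u m ν G c) {v : ℂ} (hv : v ∈ Rt) (h1 : M2C Set.univ h (hd h v G))
    (h2 : M2C Set.univ h (hd h v (hd h v G))) :
    PQ h u m ν (hd h v G) (fun α => c α * (Pool.Agent.R989.Der.rr v α * I)) := by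
  obtain ⟨C, hC⟩ := H.cb
  have hC0 : 0 ≤ C := (norm_nonneg _).trans (hC 0)
  have smu : ∀ n, ContDiff ℝ ∞ (u n) := fun n => contDiffOn_univ.1 (hu.sm n)
  refine ⟨h1, H.cc.mul ((Complex.continuous_ofReal.comp (Pool.Agent.R989.Der.rr_cont v)).mul
    continuous_const), ⟨C * (|v.re| + |v.im|), fun α => ?_⟩, fun φ hφ w hw => ?_⟩
  · rw [norm_mul, norm_mul, Complex.norm_real, Real.norm_eq_abs, Complex.norm_I, mul_one]
    exact mul_le_mul (hC α) (Pool.Agent.R989.Der.rr_bd v α) (abs_nonneg _) hC0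
  · obtain ⟨D, hD⟩ := PR_bd hφ hh hu (M2C.lb h2) (‖w‖ + ‖v‖)
    have hg := (((gd (ν := ν) H.cc H.cb w v).const_mul (m : ℂ)).const_mul
      (((∫ z, φ z : ℝ) : ℂ)))
    have sG : ∀ n, ContDiff ℝ ∞ (G n) := fun n => contDiffOn_univ.1 (H.mc.sm n)
    have sG1 : ∀ n, ContDiff ℝ ∞ (hd h v G n) := fun n => contDiffOn_univ.1 (h1.sm n)
    have key := lim_deriv (f := fun n (τ : ℝ) => PR φ h u G n (w + τ * v))
      (f' := fun n (τ : ℝ) => PR φ h u (hd h v G) n (w + τ * v))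
      (f'' := fun n (τ : ℝ) => PR φ h u (hd h v (hd h v G)) n (w + τ * v))
      (fun n τ => PR_deriv hφ n (smu n) (sG n) w v τ)
      (fun n τ => PR_deriv hφ n (smu n) (sG1 n) w v τ) (C := D) ?_
      (fun k => ?_) ?_ hg
    · simpa using key
    · filter_upwards [hD] with n hn τ hτ
      refine hn _ ((norm_add_le _ _).trans (add_le_add le_rfl ?_))
      rw [norm_mul, Complex.norm_real, Real.norm_eq_abs, abs_of_nonneg hτ.1]
      exact mul_le_of_le_one_left (norm_nonneg _) hτ.2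
    · refine H.lim φ hφ _ (Rt_add hw ?_)
      have := Rt_smul hv (1 / ((k : ℚ) + 1))
      push_cast at this ⊢
      exact this
    · refine H.lim φ hφ _ ?_
      simpa using hw

theorem stepD (hh : Tendsto h atTop (𝓝 0)) (hu : LB Set.univ 2 u) {G : ℕ → ℂ → ℂ} {c : ℝ → ℂ}
    (H : PQ h u m ν G c) :
    PQ h u m ν (SD h G) (fun α => c α * Pool.Agent.R989.Der.sy α) := by
  have a1 := M2C.d1 H.mc
  have aI := M2C.dI H.mc
  have p1 := step hh hu H Rt_one a1 (M2C.d1 a1)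
  have pI := step hh hu H Rt_I aI (M2C.dI aI)
  obtain ⟨C, hC⟩ := H.cb
  refine ⟨?_, H.cc.mul sy_cont, ⟨C, fun α => ?_⟩, fun φ hφ w hw => ?_⟩
  · exact a1.sub isOpen_univ hh (aI.cmul isOpen_univ hh I)
  · rw [norm_mul, sy_norm, mul_one]
    exact hC α
  · have cu : ∀ n, Continuous (u n) := fun n => continuousOn_univ.1 (hu.co n)
    have c1 : ∀ n, Continuous (hd h 1 G n) := fun n => continuousOn_univ.1 (a1.co n)
    have cI : ∀ n, Continuous (hd h I G n) := fun n => continuousOn_univ.1 (aI.co n)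
    have e1 : ∀ n, PR φ h u (SD h G) n w =
        PR φ h u (hd h 1 G) n w - I * PR φ h u (hd h I G) n w := fun n =>
      PR_sub hφ n (cu n) (c1 n) (cI n) w
    have l1 := (p1.lim φ hφ w hw).sub ((pI.lim φ hφ w hw).const_mul I)
    have i : ∀ {g : ℝ → ℂ}, Continuous g → (∃ D, ∀ α, ‖g α‖ ≤ D) →
        Integrable (fun α => g α * pw w α) ν := by
      intro g hg ⟨D, hD⟩
      refine Integrable.mono' (integrable_const D) (hg.mul (pw_cont w)).aestronglyMeasurable
        (Eventually.of_forall fun α => ?_)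
      rw [norm_mul, pw_norm, mul_one]
      exact hD α
    have e2 : (((∫ z, φ z : ℝ) : ℂ) * ((m : ℂ) *
          ∫ α, c α * (Pool.Agent.R989.Der.rr 1 α * I) * pw w α ∂ν)) -
        I * (((∫ z, φ z : ℝ) : ℂ) * ((m : ℂ) *
          ∫ α, c α * (Pool.Agent.R989.Der.rr I α * I) * pw w α ∂ν)) =
        ((∫ z, φ z : ℝ) : ℂ) * ((m : ℂ) *
          ∫ α, c α * Pool.Agent.R989.Der.sy α * pw w α ∂ν) := by
      have e3 : ∫ α, c α * Pool.Agent.R989.Der.sy α * pw w α ∂ν =
          (∫ α, c α * (Pool.Agent.R989.Der.rr 1 α * I) * pw w α ∂ν) -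
          I * ∫ α, c α * (Pool.Agent.R989.Der.rr I α * I) * pw w α ∂ν := by
        rw [← integral_const_mul, ← integral_sub (i p1.cc p1.cb) ((i pI.cc pI.cb).const_mul I)]
        refine integral_congr_ae (Eventually.of_forall fun α => ?_)
        simp only
        rw [← sy_eq]
        ring
      rw [e3]
      ring
    rw [e2] at l1
    exact l1.congr fun n => (e1 n).symm

theorem iterD (hh : Tendsto h atTop (𝓝 0)) (hu : LB Set.univ 2 u)
    (H : PQ h u m ν u (fun _ => 1)) (k : ℕ) :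
    PQ h u m ν ((SD h)^[k] u) (fun α => Pool.Agent.R989.Der.sy α ^ k) := by
  induction k with
  | zero => simpa using H
  | succ k ih =>
    rw [Function.iterate_succ_apply']
    have := stepD hh hu ih
    simpa only [pow_succ] using this

variable {f : MW} {t : ℕ → ℝ}

theorem dc_sm (f : MW) (t : ℕ → ℝ) (n : ℕ) : ContDiff ℝ ∞ (dc f.1 t n) :=
  ofRealCLM.contDiff.comp (f.2.1.comp (contDiff_const.mul contDiff_id))

theorem du_sm (f : MW) (t : ℕ → ℝ) (n : ℕ) : ContDiff ℝ ∞ (du f.1 t n) :=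
  f.2.1.comp (contDiff_const.mul contDiff_id)

theorem du_eq (f : MW) (t : ℕ → ℝ) (n : ℕ) (z : ℂ) :
    lap (du f.1 t n) z + (t n) ^ 2 * du f.1 t n z = 0 := by
  have h1 := lap_dil f.2.1 (t n) z
  have h2 := f.2.2 ((t n : ℂ) * z)
  have h3 : lap (du f.1 t n) z = (t n) ^ 2 * lap f.1 ((t n : ℂ) * z) := h1
  rw [h3]
  unfold du
  linear_combination (t n) ^ 2 * h2

theorem hh (H : Dat2 f t m ν) : Tendsto (fun n => 1 / t n) atTop (𝓝 0) := by
  simp only [one_div]
  exact H.tl.inv_tendsto_atTop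

theorem dlb (H : Dat2 f t m ν) : LB Set.univ 2 (dc f.1 t) := by
  refine ⟨fun n => (dc_sm f t n).contDiffOn, fun K hK _ => ?_⟩
  obtain ⟨r, hr⟩ := hK.isBounded.subset_closedBall (0 : ℂ)
  obtain ⟨N, hN⟩ := exists_nat_ge r
  obtain ⟨C, hC⟩ := H.bd N
  refine ⟨C, hC.mono fun n hn => ?_⟩
  refine le_trans ?_ hn
  have e1 : ∫ z in K, ‖dc f.1 t n z‖ ^ 2 = ∫ z in K, du f.1 t n z ^ 2 := by
    refine setIntegral_congr_fun hK.measurableSet fun z _ => ?_
    simp only [dc, Complex.norm_real, Real.norm_eq_abs]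
    rw [Even.pow_abs (by decide)]
  rw [e1]
  refine setIntegral_mono_set ?_ ?_ ?_
  · exact ((du_sm f t n).continuous.pow 2).continuousOn.integrableOn_compact
      (isCompact_closedBall _ _)
  · exact Eventually.of_forall fun z => by
      show 0 ≤ du f.1 t n z ^ 2
      positivity
  · exact (hr.trans (Metric.closedBall_subset_closedBall hN)).eventuallyLE

theorem dmc (H : Dat2 f t m ν) : M2C Set.univ (fun n => 1 / t n) (dc f.1 t) := by
  intro k
  refine M2.sol isOpen_univ (hh H) (dlb H)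
    (ρ := fun _ => 1) contDiffOn_const (fun n z _ => ?_) k
  have h1 : lap (dc f.1 t n) z = ((lap (du f.1 t n) z : ℝ) : ℂ) :=
    lap_re isOpen_univ (du_sm f t n).contDiffOn (Set.mem_univ z)
  have h2 := du_eq f t n z
  have h3 : lap (du f.1 t n) z = -((t n) ^ 2 * du f.1 t n z) := by linarith
  have h4 := (H.tp n).ne'
  simp only [hL]
  rw [h1, h3, ← Complex.ofReal_pow, ← Complex.ofReal_mul]
  simp only [dc, one_mul]
  rw [← Complex.ofReal_neg]
  congr 1
  field_simp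

theorem dpq (H : Dat2 f t m ν) :
    PQ (fun n => 1 / t n) (dc f.1 t) m (sm ν) (dc f.1 t) (fun _ => 1) := by
  refine ⟨dmc H, continuous_const, ⟨1, fun α => by simp⟩, fun φ hφ w hw => ?_⟩
  have e1 : ∀ n, PR φ (fun n => 1 / t n) (dc f.1 t) (dc f.1 t) n w =
      ((∫ z, φ z * (f ((t n : ℂ) * z) * f ((t n : ℂ) * z + w)) : ℝ) : ℂ) := by
    intro n
    unfold PR
    rw [← integral_complex_ofReal]
    refine integral_congr_ae (Eventually.of_forall fun z => ?_)
    simp only [dc, du]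
    have h4 : ((t n : ℝ) : ℂ) ≠ 0 := by exact_mod_cast (H.tp n).ne'
    have h5 : ((t n : ℝ) : ℂ) * (z + ((1 / t n : ℝ) : ℂ) * w) = (t n : ℂ) * z + w := by
      push_cast
      field_simp
    rw [h5]
    push_cast
    ring
  have e2 : ((∫ z, φ z : ℝ) : ℂ) * ((m : ℂ) * ∫ α, (1 : ℂ) * pw w α ∂(sm ν)) =
      (((∫ z, φ z) * (m * Pool.Agent.N661.BR.cov ν w) : ℝ) : ℂ) := by
    simp only [one_mul]
    rw [sm_pw]
    push_cast
    rfl
  rw [e2]
  refine ((Complex.continuous_ofReal.tendsto _).comp (H.two φ hφ w hw)).congr fun n => ?_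
  exact (e1 n).symm

theorem fd_dil {g : ℂ → ℂ} (hg : Differentiable ℝ g) (t : ℝ) (z v : ℂ) :
    fderiv ℝ (fun z => g ((t : ℂ) * z)) z v = t * fderiv ℝ g ((t : ℂ) * z) v := by
  have h1 : HasFDerivAt (fun z : ℂ => (t : ℂ) * z) (t • ContinuousLinearMap.id ℝ ℂ) z := by
    have e : (fun z : ℂ => (t : ℂ) * z) = fun z : ℂ => t • z := by
      funext z
      rw [Complex.real_smul]
    rw [e]
    exact (hasFDerivAt_id z).const_smul t
  have h2 := ((hg ((t : ℂ) * z)).hasFDerivAt.comp z h1).fderiv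
  have h3 : fderiv ℝ (fun z => g ((t : ℂ) * z)) z =
      (fderiv ℝ g ((t : ℂ) * z)).comp (t • ContinuousLinearMap.id ℝ ℂ) := h2
  rw [h3]
  simp

theorem sm_iter (f : MW) (k : ℕ) : ContDiff ℝ ∞ ((Dp 1)^[k] fun z => ((f z : ℝ) : ℂ)) := by
  induction k with
  | zero => exact ofRealCLM.contDiff.comp f.2.1
  | succ k ih =>
    rw [Function.iterate_succ_apply']
    have hs : ∀ v, ContDiff ℝ ∞ fun z => fderiv ℝ ((Dp 1)^[k] fun z => ((f z : ℝ) : ℂ)) z v :=
      fun v => (ih.fderiv_right (by simp)).clm_apply contDiff_const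
    unfold Dp dx dy
    exact contDiff_const.mul ((hs 1).sub (contDiff_const.mul (hs I)))

theorem iter_eq (f : MW) (t : ℕ → ℝ) (ht : ∀ n, 0 < t n) (k n : ℕ) :
    (SD (fun n => 1 / t n))^[k] (dc f.1 t) n =
      fun z => ((Dp 1)^[k] fun z => ((f z : ℝ) : ℂ)) ((t n : ℂ) * z) := by
  induction k with
  | zero => rfl
  | succ k ih =>
    rw [Function.iterate_succ_apply', Function.iterate_succ_apply']
    funext z
    have hdf := (sm_iter f k).differentiable (by simp)
    have h4 : ((t n : ℝ) : ℂ) ≠ 0 := by exact_mod_cast (ht n).ne'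
    simp only [SD, hd]
    rw [ih, fd_dil hdf, fd_dil hdf]
    simp only [Dp, dx, dy]
    push_cast
    field_simp

theorem t_HSC2 : S_HSC2 := by
  intro f t m ν hν H φ hφ k
  have h1 := (iterD (hh H) (dlb H) (dpq H) k).lim φ hφ 0 Rt_zero
  have e1 : ((∫ z, φ z : ℝ) : ℂ) * ((m : ℂ) *
        ∫ α, Pool.Agent.R989.Der.sy α ^ k * pw 0 α ∂(sm ν)) =
      ((∫ z, φ z : ℝ) : ℂ) * ((m : ℂ) * ∫ α, Pool.Agent.Y265.RW.sy α ^ k ∂(sm ν)) := by
    congr 2
    refine integral_congr_ae (Eventually.of_forall fun α => ?_)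
    simp only [pw, Pool.Agent.R989.Der.rr, zero_re, zero_im, zero_mul, add_zero,
      Complex.ofReal_zero, Complex.exp_zero, mul_one]
    rfl
  rw [e1] at h1
  refine h1.congr fun n => ?_
  unfold PR
  refine integral_congr_ae (Eventually.of_forall fun z => ?_)
  simp only [mul_zero, add_zero]
  rw [iter_eq f t H.tp]
  rfl

end

end Pool.Agent.U882.SG
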